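import Pool.Agent.Lib_MP_6d30b5_co.Defs

set_option autoImplicit false

namespace Pool.Agent.Lib_MP_6d30b5_co

open Finset SimpleGraph

section identity

variable {V : Type*}

lemma induce_connected_iff_aux (G : SimpleGraph V) {x y z : V} (hxy : x ≠ y)
    (s : Set V) (hx : x ∈ s) (hy : y ∈ s) (hz : z ∈ s)
    (hs : ∀ v ∈ s, v = x ∨ v = y ∨ v = z) :
    (G.induce s).Connected ↔
      ((G.Adj x y ∧ G.Adj y z) ∨ (G.Adj x y ∧ G.Adj x z) ∨ (G.Adj x z ∧ G.Adj y z)) := by
  constructor
  · intro h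
    have : Nontrivial s := ⟨⟨x, hx⟩, ⟨y, hy⟩, fun h => hxy (congrArg Subtype.val h)⟩
    have key : ∀ v : V, ∀ hv : v ∈ s,
        ∃ u, (u = x ∨ u = y ∨ u = z) ∧ G.Adj v u := by
      intro v hv
      obtain ⟨u, hu⟩ := h.preconnected.exists_adj_of_nontrivial ⟨v, hv⟩
      exact ⟨u.1, hs u.1 u.2, hu⟩
    obtain ⟨u1, h1, a1⟩ := key x hx
    obtain ⟨u2, h2, a2⟩ := key y hy
    obtain ⟨u3, h3, a3⟩ := key z hz
    have e1 : G.Adj x y ∨ G.Adj x z := by
      rcases h1 with rfl | rfl | rfl
      · exact absurd a1 (G.irrefl)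
      · exact Or.inl a1
      · exact Or.inr a1
    have e2 : G.Adj x y ∨ G.Adj y z := by
      rcases h2 with rfl | rfl | rfl
      · exact Or.inl a2.symm
      · exact absurd a2 (G.irrefl)
      · exact Or.inr a2
    have e3 : G.Adj x z ∨ G.Adj y z := by
      rcases h3 with rfl | rfl | rfl
      · exact Or.inl a3.symm
      · exact Or.inr a3.symm
      · exact absurd a3 (G.irrefl)
    tauto
  · intro h
    have adj : ∀ {a b : V} (ha : a ∈ s) (hb : b ∈ s), G.Adj a b →
        (G.induce s).Reachable ⟨a, ha⟩ ⟨b, hb⟩ := by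
      intro a b ha hb hab
      exact SimpleGraph.Adj.reachable hab
    have Rxy : (G.induce s).Reachable ⟨x, hx⟩ ⟨y, hy⟩ := by
      rcases h with ⟨h1, h2⟩ | ⟨h1, h2⟩ | ⟨h1, h2⟩
      · exact adj hx hy h1
      · exact adj hx hy h1
      · exact (adj hx hz h1).trans (adj hz hy h2.symm)
    have Rxz : (G.induce s).Reachable ⟨x, hx⟩ ⟨z, hz⟩ := by
      rcases h with ⟨h1, h2⟩ | ⟨h1, h2⟩ | ⟨h1, h2⟩
      · exact (adj hx hy h1).trans (adj hy hz h2)
      · exact adj hx hz h2
      · exact adj hx hz h1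
    have : Nonempty s := ⟨⟨x, hx⟩⟩
    have hall : ∀ v : s, (G.induce s).Reachable ⟨x, hx⟩ v := by
      rintro ⟨v, hv⟩
      rcases hs v hv with rfl | rfl | rfl
      · exact SimpleGraph.Reachable.refl _
      · exact Rxy
      · exact Rxz
    exact ⟨fun u v => (hall u).symm.trans (hall v)⟩

lemma induce_connected_iff (G : SimpleGraph V) {x y z : V} (hxy : x ≠ y)
    [DecidableEq V] :
    (G.induce ((({x, y, z} : Finset V)) : Set V)).Connected ↔
      ((G.Adj x y ∧ G.Adj y z) ∨ (G.Adj x y ∧ G.Adj x z) ∨ (G.Adj x z ∧ G.Adj y z)) := by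
  apply induce_connected_iff_aux G hxy
  · simp
  · simp
  · simp
  · intro v hv
    simpa using hv

end identity



open Classical

section identity2
variable {V : Type*} [Fintype V]

/-- ordered induced paths on three vertices -/
def IsP (G : SimpleGraph V) (t : V × V × V) : Prop :=
  G.Adj t.1 t.2.1 ∧ G.Adj t.2.1 t.2.2 ∧ t.1 ≠ t.2.2 ∧ ¬ G.Adj t.1 t.2.2

/-- number of ordered induced paths on three vertices -/
noncomputable def np (G : SimpleGraph V) : ℕ :=
  ((univ : Finset (V × V × V)).filter (IsP G)).card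

noncomputable def ff (G : SimpleGraph V) (t : V × V × V) : ℕ :=
  if (G.Adj t.1 t.2.1 ∧ G.Adj t.2.1 t.2.2 ∧ t.1 ≠ t.2.2) then
    (if G.Adj t.1 t.2.2 then 1 else 3) else 0

noncomputable def st (t : V × V × V) : Finset V := {t.1, t.2.1, t.2.2}

lemma filter_st {x y z : V} (hxy : x ≠ y) (hxz : x ≠ z) (hyz : y ≠ z) :
    (univ : Finset (V × V × V)).filter (fun t => st t = {x, y, z}) =
      {(x, y, z), (x, z, y), (y, x, z), (y, z, x), (z, x, y), (z, y, x)} := by
  ext ⟨a, b, c⟩
  simp only [mem_filter, mem_univ, true_and, st, mem_insert, mem_singleton, Prod.mk.injEq]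
  constructor
  · intro h
    have ha : a ∈ ({x, y, z} : Finset V) := by rw [← h]; simp
    have hb : b ∈ ({x, y, z} : Finset V) := by rw [← h]; simp
    have hc : c ∈ ({x, y, z} : Finset V) := by rw [← h]; simp
    have hx : x ∈ ({a, b, c} : Finset V) := by rw [h]; simp
    have hy : y ∈ ({a, b, c} : Finset V) := by rw [h]; simp
    have hz : z ∈ ({a, b, c} : Finset V) := by rw [h]; simp
    simp only [mem_insert, mem_singleton] at ha hb hc hx hy hz
    clear h
    have hxy' := hxy.symm
    have hxz' := hxz.symm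
    have hyz' := hyz.symm
    rcases ha with rfl | rfl | rfl <;> rcases hb with rfl | rfl | rfl <;>
      rcases hc with rfl | rfl | rfl <;> simp_all
  · rintro (⟨rfl, rfl, rfl⟩ | ⟨rfl, rfl, rfl⟩ | ⟨rfl, rfl, rfl⟩ | ⟨rfl, rfl, rfl⟩ | ⟨rfl, rfl, rfl⟩ | ⟨rfl, rfl, rfl⟩)
    all_goals first | rfl | (ext v; simp only [mem_insert, mem_singleton]; tauto)

lemma sum_fiber (G : SimpleGraph V) (S : Finset V) :
    (∑ t ∈ (univ : Finset (V × V × V)) with st t = S, ff G t) =
      if (S.card = 3 ∧ (G.induce (S : Set V)).Connected) then 6 else 0 := by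
  by_cases hS : S.card = 3
  · obtain ⟨x, y, z, hxy, hxz, hyz, rfl⟩ := Finset.card_eq_three.mp hS
    rw [filter_st hxy hxz hyz]
    simp only [induce_connected_iff G hxy]
    have h1 : (x, y, z) ∉ ({(x, z, y), (y, x, z), (y, z, x), (z, x, y), (z, y, x)} : Finset (V × V × V)) := by
      simp [hxy, hxz, hyz, hxy.symm, hxz.symm, hyz.symm]
    have h2 : (x, z, y) ∉ ({(y, x, z), (y, z, x), (z, x, y), (z, y, x)} : Finset (V × V × V)) := by
      simp [hxy, hxz, hyz, hxy.symm, hxz.symm, hyz.symm]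
    have h3 : (y, x, z) ∉ ({(y, z, x), (z, x, y), (z, y, x)} : Finset (V × V × V)) := by
      simp [hxy, hxz, hyz, hxy.symm, hxz.symm, hyz.symm]
    have h4 : (y, z, x) ∉ ({(z, x, y), (z, y, x)} : Finset (V × V × V)) := by
      simp [hxy, hxz, hyz, hxy.symm, hxz.symm, hyz.symm]
    have h5 : (z, x, y) ∉ ({(z, y, x)} : Finset (V × V × V)) := by
      simp [hxy, hxz, hyz, hxy.symm, hxz.symm, hyz.symm]
    rw [sum_insert h1, sum_insert h2, sum_insert h3, sum_insert h4, sum_insert h5, sum_singleton]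
    have c1 : G.Adj y x ↔ G.Adj x y := G.adj_comm y x
    have c2 : G.Adj z x ↔ G.Adj x z := G.adj_comm z x
    have c3 : G.Adj z y ↔ G.Adj y z := G.adj_comm z y
    simp only [ff, c1, c2, c3, hS, true_and]
    by_cases a1 : G.Adj x y <;> by_cases a2 : G.Adj x z <;> by_cases a3 : G.Adj y z <;>
      simp [a1, a2, a3, hxy, hxz, hyz, hxy.symm, hxz.symm, hyz.symm]
  · rw [if_neg (fun h => hS h.1)]
    apply sum_eq_zero
    intro t ht
    rw [mem_filter] at ht
    obtain ⟨-, ht⟩ := ht
    unfold ff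
    rw [if_neg]
    rintro ⟨h1, h2, h3⟩
    apply hS
    rw [← ht, st]
    exact Finset.card_eq_three.mpr ⟨_, _, _, h1.ne, h3, h2.ne, rfl⟩

lemma sum_ff (G : SimpleGraph V) : ∑ t, ff G t = 6 * s3 G := by
  rw [← Finset.sum_fiberwise (univ : Finset (V × V × V)) st (ff G)]
  simp only [sum_fiber]
  rw [← Finset.sum_filter, Finset.sum_const, smul_eq_mul, mul_comm]
  congr 1
  rw [s3, Set.ncard_eq_toFinset_card']
  congr 1
  ext S
  simp

lemma sum_cherry (G : SimpleGraph V) :
    ((univ : Finset (V × V × V)).filter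
      (fun t => G.Adj t.1 t.2.1 ∧ G.Adj t.2.1 t.2.2 ∧ t.1 ≠ t.2.2)).card =
      ∑ v, G.degree v * (G.degree v - 1) := by
  have h1 : ∀ v, G.degree v * (G.degree v - 1) = (G.neighborFinset v).offDiag.card := by
    intro v
    rw [offDiag_card, card_neighborFinset_eq_degree, Nat.mul_sub_one]
  simp only [h1]
  rw [← Finset.card_sigma]
  apply Finset.card_bij' (i := fun (t : V × V × V) _ => (⟨t.2.1, (t.1, t.2.2)⟩ : Σ _ : V, V × V))
    (j := fun s _ => (s.2.1, s.1, s.2.2))
  · rintro ⟨a, b, c⟩ h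
    simp only [mem_filter, mem_univ, true_and] at h
    simp only [mem_sigma, mem_univ, true_and, mem_offDiag, mem_neighborFinset]
    exact ⟨h.1.symm, h.2.1, h.2.2⟩
  · rintro ⟨b, a, c⟩ h
    simp only [mem_sigma, mem_univ, true_and, mem_offDiag, mem_neighborFinset] at h
    simp only [mem_filter, mem_univ, true_and]
    exact ⟨h.1.symm, h.2.1, h.2.2⟩
  · rintro ⟨a, b, c⟩ h
    rfl
  · rintro ⟨b, a, c⟩ h
    rfl

lemma six_s3 (G : SimpleGraph V) :
    6 * s3 G = 2 * np G + ∑ v, G.degree v * (G.degree v - 1) := by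
  rw [← sum_ff, ← sum_cherry, np, Finset.card_filter, Finset.card_filter, Finset.mul_sum,
    ← Finset.sum_add_distrib]
  apply Finset.sum_congr rfl
  rintro ⟨a, b, c⟩ -
  simp only [ff, IsP]
  by_cases h1 : G.Adj a b <;> by_cases h2 : G.Adj b c <;> by_cases h3 : a = c <;>
    by_cases h4 : G.Adj a c <;> simp [h1, h2, h3, h4]

end identity2



section weights
variable {V : Type*} [Fintype V]

/-- twice the defect: `2 * (3 s3 - 2 p e + p (p+1) n / 2)`. -/
noncomputable def w2 (p : ℕ) (G : SimpleGraph V) : ℤ :=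
  2 * (np G : ℤ) + ∑ v, ((G.degree v : ℤ) - p) * ((G.degree v : ℤ) - p - 1)

lemma nn (t : ℤ) : 0 ≤ t * (t - 1) := by
  rcases le_or_gt t 0 with h | h
  · nlinarith
  · nlinarith

lemma nn' (t : ℤ) (p : ℤ) : 0 ≤ (t - p) * (t - p - 1) := nn (t - p)

lemma ncard_edges (G : SimpleGraph V) : G.edgeSet.ncard = G.edgeFinset.card := by
  rw [Set.ncard_eq_toFinset_card', SimpleGraph.edgeFinset]

lemma sum_deg (G : SimpleGraph V) : ∑ v, (G.degree v : ℤ) = 2 * (G.edgeSet.ncard : ℤ) := by
  rw [ncard_edges]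
  exact_mod_cast G.sum_degrees_eq_twice_card_edges

lemma w2_eq (p : ℕ) (G : SimpleGraph V) :
    w2 p G = 6 * (s3 G : ℤ) - 4 * p * (G.edgeSet.ncard : ℤ) + p * (p + 1) * (Fintype.card V : ℤ) := by
  have h := six_s3 G
  have h' : 6 * (s3 G : ℤ) = 2 * (np G : ℤ) + ∑ v, (G.degree v : ℤ) * ((G.degree v : ℤ) - 1) := by
    have : ((6 * s3 G : ℕ) : ℤ) = ((2 * np G + ∑ v, G.degree v * (G.degree v - 1) : ℕ) : ℤ) := by
      rw [h]
    push_cast at this
    rw [this]
    congr 1
    apply sum_congr rfl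
    intro v _
    rcases Nat.eq_zero_or_pos (G.degree v) with h0 | h0
    · simp [h0]
    · rw [Nat.cast_sub h0]; push_cast; ring
  rw [h', w2]
  have h2 : ∑ v, ((G.degree v : ℤ) - p) * ((G.degree v : ℤ) - p - 1) =
      ∑ v, (G.degree v : ℤ) * ((G.degree v : ℤ) - 1) - 2 * p * ∑ v, (G.degree v : ℤ)
        + p * (p + 1) * (Fintype.card V : ℤ) := by
    rw [Finset.mul_sum, ← Finset.sum_sub_distrib]
    have : (p * (p + 1) * (Fintype.card V : ℤ) : ℤ) = ∑ v : V, ((p : ℤ) * (p + 1)) := by
      rw [Finset.sum_const, Finset.card_univ, nsmul_eq_mul]; ring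
    rw [this, ← Finset.sum_add_distrib]
    apply sum_congr rfl
    intro v _
    ring
  rw [h2, sum_deg]
  ring

lemma U_eq (p : ℕ) (G : SimpleGraph V) :
    ∑ v, ((p : ℤ) + 1 - G.degree v) = (p + 1) * (Fintype.card V : ℤ) - 2 * (G.edgeSet.ncard : ℤ) := by
  rw [Finset.sum_sub_distrib, sum_deg, Finset.sum_const, Finset.card_univ, nsmul_eq_mul]
  ring

/-- images of the neighbours of `a` -/
noncomputable def pf (G : SimpleGraph V) (a b c : V) (x : V) : V × V × V :=
  if G.Adj x c then (a, x, c) else if G.Adj x b then (x, b, c) else (x, a, b)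

lemma pf_isP (G : SimpleGraph V) {a b c : V} (h : IsP G (a, b, c)) {x : V} (hx : G.Adj a x) :
    IsP G (pf G a b c x) := by
  obtain ⟨h1, h2, h3, h4⟩ := h
  simp only at h1 h2 h3 h4
  unfold pf
  split_ifs with k1 k2
  · exact ⟨hx, k1, h3, h4⟩
  · refine ⟨k2, h2, ?_, k1⟩
    rintro (hh : x = c)
    subst hh
    exact h4 hx
  · refine ⟨hx.symm, h1, ?_, k2⟩
    rintro (hh : x = b)
    subst hh
    exact k1 h2

lemma pf_inj (G : SimpleGraph V) {a b c : V} (h : IsP G (a, b, c)) {x y : V} (hx : G.Adj a x)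
    (hy : G.Adj a y) (e : pf G a b c x = pf G a b c y) : x = y := by
  obtain ⟨h1, h2, h3, h4⟩ := h
  simp only at h1 h2 h3 h4
  have hbc := h2.ne
  unfold pf at e
  split_ifs at e with k1 k2 k3 k4 k5 <;> simp only [Prod.mk.injEq] at e
  · exact e.2.1
  · exact absurd e.1.symm hy.ne'
  · exact absurd e.2.2.symm hbc
  · exact absurd e.1 hx.ne'
  · exact e.1
  · exact absurd e.2.2.symm hbc
  · exact absurd e.2.2 hbc
  · exact absurd e.2.2 hbc
  · exact e.1

lemma pf_disj (G : SimpleGraph V) {a b c : V} (h : IsP G (a, b, c)) {x y : V} (hx : G.Adj a x)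
    (hy : G.Adj c y) (e : pf G a b c x = pf G c b a y) : False := by
  obtain ⟨h1, h2, h3, h4⟩ := h
  simp only at h1 h2 h3 h4
  have hbc := h2.ne
  have hab := h1.ne
  unfold pf at e
  split_ifs at e with k1 k2 k3 k4 k5 <;> simp only [Prod.mk.injEq] at e
  all_goals first
    | exact h3 e.2.2.symm
    | exact h3 e.2.2
    | exact hbc e.2.2.symm
    | exact hbc e.2.2
    | exact hab e.2.2
    | exact hab e.2.2.symm
    | exact h3 e.2.1
    | exact h3 e.2.1.symm

lemma np_ge (G : SimpleGraph V) {a b c : V} (h : IsP G (a, b, c)) :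
    G.degree a + G.degree c ≤ np G := by
  have h' : IsP G (c, b, a) := ⟨h.2.1.symm, h.1.symm, h.2.2.1.symm, fun k => h.2.2.2 k.symm⟩
  have hd : Disjoint ((G.neighborFinset a).image (pf G a b c)) ((G.neighborFinset c).image (pf G c b a)) := by
    rw [Finset.disjoint_left]
    intro t ht ht'
    rw [mem_image] at ht ht'
    obtain ⟨x, hx, rfl⟩ := ht
    obtain ⟨y, hy, hxy⟩ := ht'
    rw [mem_neighborFinset] at hx hy
    exact pf_disj G h hx hy hxy.symm
  have c1 : ((G.neighborFinset a).image (pf G a b c)).card = G.degree a := by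
    rw [card_image_of_injOn, card_neighborFinset_eq_degree]
    intro x hx y hy e
    simp only [coe_neighborFinset, mem_neighborSet] at hx hy
    exact pf_inj G h hx hy e
  have c2 : ((G.neighborFinset c).image (pf G c b a)).card = G.degree c := by
    rw [card_image_of_injOn, card_neighborFinset_eq_degree]
    intro x hx y hy e
    simp only [coe_neighborFinset, mem_neighborSet] at hx hy
    exact pf_inj G h' hx hy e
  rw [← c1, ← c2, ← card_union_of_disjoint hd, np]
  apply card_le_card
  intro t ht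
  rw [mem_union, mem_image, mem_image] at ht
  rw [mem_filter]
  refine ⟨mem_univ _, ?_⟩
  rcases ht with ⟨x, hx, rfl⟩ | ⟨x, hx, rfl⟩
  · exact pf_isP G h ((mem_neighborFinset _ _ _).mp hx)
  · exact pf_isP G h' ((mem_neighborFinset _ _ _).mp hx)

lemma path_cost (p : ℕ) (G : SimpleGraph V) {a b c : V} (h : IsP G (a, b, c)) :
    4 * (p : ℤ) ≤ w2 p G := by
  have h1 := np_ge G h
  have h1' : (G.degree a : ℤ) + G.degree c ≤ np G := by exact_mod_cast h1
  have hac : a ≠ c := h.2.2.1
  have h2 : ((G.degree a : ℤ) - p) * ((G.degree a : ℤ) - p - 1) +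
      ((G.degree c : ℤ) - p) * ((G.degree c : ℤ) - p - 1) ≤
      ∑ v, ((G.degree v : ℤ) - p) * ((G.degree v : ℤ) - p - 1) := by
    rw [← Finset.sum_pair hac (f := fun v => ((G.degree v : ℤ) - p) * ((G.degree v : ℤ) - p - 1))]
    apply Finset.sum_le_sum_of_subset_of_nonneg (subset_univ _)
    intro i _ _
    exact nn' _ _
  have h3 := nn ((G.degree a : ℤ) - p + 1)
  have h4 := nn ((G.degree c : ℤ) - p + 1)
  rw [w2]
  nlinarith


/-- in a graph without induced paths, adjacent vertices have the same closed neighbourhood -/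
lemma closed_nbhd (G : SimpleGraph V) (hG : ∀ a b c, ¬ IsP G (a, b, c)) {u v : V}
    (h : G.Adj u v) : insert u (G.neighborFinset u) = insert v (G.neighborFinset v) := by
  have tr : ∀ a b c, G.Adj a b → G.Adj b c → a ≠ c → G.Adj a c := by
    intro a b c h1 h2 h3
    by_contra h4
    exact hG a b c ⟨h1, h2, h3, h4⟩
  ext x
  simp only [mem_insert, mem_neighborFinset]
  constructor
  · rintro (rfl | hx)
    · exact Or.inr h.symm
    · by_cases hxv : x = v
      · exact Or.inl hxv
      · exact Or.inr (tr v u x h.symm hx (Ne.symm hxv))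
  · rintro (rfl | hx)
    · exact Or.inr h
    · by_cases hxu : x = u
      · exact Or.inl hxu
      · exact Or.inr (tr u v x h hx (Ne.symm hxu))

lemma card_insert_nbhd (G : SimpleGraph V) (v : V) :
    (insert v (G.neighborFinset v)).card = G.degree v + 1 := by
  rw [card_insert_of_notMem (by simp), card_neighborFinset_eq_degree]

lemma deg_eq_of_closed (G : SimpleGraph V) {u v : V}
    (h : insert u (G.neighborFinset u) = insert v (G.neighborFinset v)) :
    G.degree u = G.degree v := by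
  have := congrArg Finset.card h
  rw [card_insert_nbhd, card_insert_nbhd] at this
  omega

lemma deg_eq (G : SimpleGraph V) (hG : ∀ a b c, ¬ IsP G (a, b, c)) {v : V} :
    ∀ u ∈ insert v (G.neighborFinset v), G.degree u = G.degree v := by
  intro u hu
  rw [mem_insert, mem_neighborFinset] at hu
  rcases hu with rfl | hu
  · rfl
  · exact deg_eq_of_closed G (closed_nbhd G hG hu.symm)

lemma sum_block_le (G : SimpleGraph V) (hG : ∀ a b c, ¬ IsP G (a, b, c)) (f : ℤ → ℤ)
    (hf : ∀ v, 0 ≤ f (G.degree v)) (v : V) :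
    ((G.degree v : ℤ) + 1) * f (G.degree v) ≤ ∑ u, f (G.degree u) := by
  have h1 : ∑ u ∈ insert v (G.neighborFinset v), f (G.degree u) ≤ ∑ u, f (G.degree u) := by
    apply Finset.sum_le_sum_of_subset_of_nonneg (subset_univ _)
    intro i _ _
    exact hf i
  have h2 : ∑ u ∈ insert v (G.neighborFinset v), f (G.degree u) =
      ((G.degree v : ℤ) + 1) * f (G.degree v) := by
    rw [Finset.sum_congr rfl (g := fun _ => f (G.degree v))
      (fun u hu => by rw [deg_eq G hG u hu]), Finset.sum_const, card_insert_nbhd, nsmul_eq_mul]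
    push_cast
    ring
  linarith

lemma arith1 (p d : ℤ) (hp : 2 ≤ p) (hd : 0 ≤ d) (h : (d + 1) * ((d - p) * (d - p - 1)) ≤ 2 * p) :
    d = p - 1 ∨ d = p ∨ d = p + 1 := by
  by_contra hcon
  push Not at hcon
  obtain ⟨h1, h2, h3⟩ := hcon
  rcases lt_or_ge d p with hlt | hge
  · have hi : d ≤ p - 2 := by omega
    obtain ⟨i, hi2⟩ : ∃ i : ℤ, i = p - d := ⟨_, rfl⟩
    have hd' : d = p - i := by omega
    subst hd'
    have hi0 : 2 ≤ i := by omega
    have hip : i ≤ p := by omega
    have e : (p - i + 1) * ((p - i - p) * (p - i - p - 1)) = (p + 1 - i) * i * (i + 1) := by ring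
    rw [e] at h
    have k1 : p ≤ (p + 1 - i) * i := by nlinarith
    nlinarith
  · have hi : p + 2 ≤ d := by omega
    have k1 : 2 ≤ (d - p) * (d - p - 1) := by nlinarith
    nlinarith

/-- the key lower bound for the disproof -/
lemma lower (p : ℕ) (hp : 2 ≤ p) (G : SimpleGraph V)
    (hU : ∑ v, ((p : ℤ) + 1 - G.degree v) = p - 1) : 2 * (p : ℤ) < w2 p G := by
  by_contra hcon
  push Not at hcon
  have hp' : (2 : ℤ) ≤ p := by exact_mod_cast hp
  have hG : ∀ a b c, ¬ IsP G (a, b, c) := by
    intro a b c h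
    have := path_cost p G h
    linarith
  have hb : ∀ v, G.degree v = p - 1 ∨ G.degree v = p ∨ G.degree v = p + 1 := by
    intro v
    have h1 := sum_block_le G hG (fun d => (d - p) * (d - p - 1)) (fun v => nn' _ _) v
    have h2 : ((G.degree v : ℤ) + 1) * (((G.degree v : ℤ) - p) * ((G.degree v : ℤ) - p - 1)) ≤ 2 * p := by
      refine le_trans h1 (le_trans ?_ hcon)
      rw [w2]
      have : (0 : ℤ) ≤ np G := by positivity
      linarith
    have h3 := arith1 p (G.degree v) hp' (by positivity) h2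
    omega
  have hnn : ∀ v, (0 : ℤ) ≤ (p : ℤ) + 1 - (G.degree v : ℤ) := by
    intro v
    have := hb v
    omega
  by_cases hex : ∃ v, G.degree v = p - 1
  · obtain ⟨v, hv⟩ := hex
    have h1 := sum_block_le G hG (fun d => (p : ℤ) + 1 - d) hnn v
    rw [hU] at h1
    have : (G.degree v : ℤ) = p - 1 := by omega
    rw [this] at h1
    nlinarith
  · push Not at hex
    have hex2 : ∃ v, G.degree v = p := by
      by_contra hno
      push Not at hno
      have : ∑ v, ((p : ℤ) + 1 - G.degree v) = 0 := by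
        apply Finset.sum_eq_zero
        intro v _
        rcases hb v with h | h | h
        · exact absurd h (hex v)
        · exact absurd h (hno v)
        · rw [h]; push_cast; ring
      rw [hU] at this
      omega
    obtain ⟨v, hv⟩ := hex2
    have h1 := sum_block_le G hG (fun d => (p : ℤ) + 1 - d) hnn v
    rw [hU] at h1
    rw [hv] at h1
    nlinarith

end weights



section ops
variable {V : Type*} [Fintype V] {W : Type*} [Fintype W]

noncomputable def UU (p : ℕ) (G : SimpleGraph V) : ℤ := ∑ v, ((p : ℤ) + 1 - G.degree v)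
noncomputable def VV (p : ℕ) (G : SimpleGraph V) : ℤ := ∑ v, ((G.degree v : ℤ) - p)

lemma np_eq_sum (G : SimpleGraph V) :
    np G = ∑ a, ∑ b, ∑ c, (if IsP G (a, b, c) then 1 else 0) := by
  rw [np, Finset.card_filter, Fintype.sum_prod_type]
  simp only [Fintype.sum_prod_type]

lemma degree_inl (G : SimpleGraph V) (H : SimpleGraph W) (v : V)
    [Fintype ((G ⊕g H).neighborSet (Sum.inl v))] [Fintype (G.neighborSet v)] :
    (G ⊕g H).degree (Sum.inl v) = G.degree v := by
  rw [← card_neighborFinset_eq_degree, ← card_neighborFinset_eq_degree,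
    ← Finset.card_map (Function.Embedding.inl : V ↪ V ⊕ W)]
  congr 1
  ext x
  cases x <;> simp

lemma degree_inr (G : SimpleGraph V) (H : SimpleGraph W) (v : W)
    [Fintype ((G ⊕g H).neighborSet (Sum.inr v))] [Fintype (H.neighborSet v)] :
    (G ⊕g H).degree (Sum.inr v) = H.degree v := by
  rw [← card_neighborFinset_eq_degree, ← card_neighborFinset_eq_degree,
    ← Finset.card_map (Function.Embedding.inr : W ↪ V ⊕ W)]
  congr 1
  ext x
  cases x <;> simp

lemma np_sum (G : SimpleGraph V) (H : SimpleGraph W) : np (G ⊕g H) = np G + np H := by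
  simp only [np_eq_sum, Fintype.sum_sum_type, IsP]
  simp only [sum_adj, Finset.sum_add_distrib]
  simp
  simp only [Finset.card_filter]
  congr!

lemma w2_sum (p : ℕ) (G : SimpleGraph V) (H : SimpleGraph W) :
    w2 p (G ⊕g H) = w2 p G + w2 p H := by
  simp only [w2, np_sum, Fintype.sum_sum_type, degree_inl, degree_inr]
  push_cast
  ring

lemma UU_sum (p : ℕ) (G : SimpleGraph V) (H : SimpleGraph W) :
    UU p (G ⊕g H) = UU p G + UU p H := by
  simp only [UU, Fintype.sum_sum_type, degree_inl, degree_inr]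

lemma VV_sum (p : ℕ) (G : SimpleGraph V) (H : SimpleGraph W) :
    VV p (G ⊕g H) = VV p G + VV p H := by
  simp only [VV, Fintype.sum_sum_type, degree_inl, degree_inr]

lemma degree_top (q : ℕ) (v : Fin q) [Fintype ((⊤ : SimpleGraph (Fin q)).neighborSet v)] :
    ((⊤ : SimpleGraph (Fin q)).degree v : ℤ) = q - 1 := by
  have hq : 0 < q := Fin.pos v
  have h1 : (⊤ : SimpleGraph (Fin q)).degree v = q - 1 := by
    have := SimpleGraph.complete_graph_degree (V := Fin q) v
    rw [Fintype.card_fin] at this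
    rw [← this]
    congr 1
    exact Subsingleton.elim _ _
  rw [h1]
  omega

lemma np_top (q : ℕ) : np (⊤ : SimpleGraph (Fin q)) = 0 := by
  rw [np, Finset.card_eq_zero, Finset.filter_eq_empty_iff]
  rintro ⟨a, b, c⟩ - ⟨h1, h2, h3, h4⟩
  simp only [top_adj] at *
  exact h4 h3

lemma w2_top (p q : ℕ) : w2 p (⊤ : SimpleGraph (Fin q)) = q * ((q - 1 - p) * (q - 1 - p - 1)) := by
  simp only [w2, np_top, degree_top]
  simp

lemma UU_top (p q : ℕ) : UU p (⊤ : SimpleGraph (Fin q)) = q * (p + 1 - (q - 1)) := by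
  simp only [UU, degree_top]
  simp
  ring

lemma VV_top (p q : ℕ) : VV p (⊤ : SimpleGraph (Fin q)) = q * ((q - 1) - p) := by
  simp only [VV, degree_top]
  simp
  ring

/-- There is a finite graph with parameters `U`, `V` and doubled defect at most `w`. -/
def T (p : ℕ) (U V w : ℤ) : Prop :=
  ∃ (X : Type) (_ : Fintype X) (G : SimpleGraph X), UU p G = U ∧ VV p G = V ∧ w2 p G ≤ w

lemma T_add (p q : ℕ) {U V w : ℤ} (h : T p U V w) :
    T p (U + q * (p + 1 - (q - 1))) (V + q * ((q - 1) - p)) (w + q * ((q - 1 - p) * (q - 1 - p - 1))) := by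
  obtain ⟨X, _, G, h1, h2, h3⟩ := h
  refine ⟨X ⊕ Fin q, inferInstance, G ⊕g ⊤, ?_, ?_, ?_⟩
  · rw [UU_sum, h1, UU_top]
  · rw [VV_sum, h2, VV_top]
  · rw [w2_sum, w2_top]; linarith

lemma T_zero (p : ℕ) : T p 0 0 0 :=
  ⟨Fin 0, inferInstance, ⊤, by simp [UU], by simp [VV], by simp [w2, np_top]⟩

lemma T_mono (p : ℕ) {U V w w' : ℤ} (h : T p U V w) (hw : w ≤ w') : T p U V w' := by
  obtain ⟨X, _, G, h1, h2, h3⟩ := h
  exact ⟨X, _, G, h1, h2, h3.trans hw⟩

/-- add `k` copies of `K_p` -/
lemma T_addA (p k : ℕ) {U V w : ℤ} (h : T p U V w) :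
    T p (U + 2 * p * k) (V - p * k) (w + 2 * p * k) := by
  induction k with
  | zero => simpa using h
  | succ k ih =>
    have := T_add p p ih
    convert this using 1 <;> push_cast <;> ring

/-- add `k` copies of `K_{p+1}` -/
lemma T_addB (p k : ℕ) {U V w : ℤ} (h : T p U V w) :
    T p (U + (p + 1) * k) V w := by
  induction k with
  | zero => simpa using h
  | succ k ih =>
    have := T_add p (p + 1) ih
    convert this using 1 <;> push_cast <;> ring

/-- add `k` copies of `K_{p+2}` -/
lemma T_addC (p k : ℕ) {U V w : ℤ} (h : T p U V w) :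
    T p U (V + (p + 2) * k) w := by
  induction k with
  | zero => simpa using h
  | succ k ih =>
    have := T_add p (p + 2) ih
    convert this using 1 <;> push_cast <;> ring


/-! ### Deleting a closed set of vertices -/

lemma np_comap_le (G : SimpleGraph V) (s : Set V) [Fintype s] : np (G.induce s) ≤ np G := by
  unfold np
  apply Finset.card_le_card_of_injOn (fun t => (t.1.1, t.2.1.1, t.2.2.1))
  · rintro ⟨a, b, c⟩ h
    simp only [coe_filter, mem_univ, true_and, Set.mem_ofPred_eq, IsP] at h ⊢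
    refine ⟨h.1, h.2.1, fun e => h.2.2.1 (Subtype.ext e), h.2.2.2⟩
  · rintro ⟨a, b, c⟩ - ⟨a', b', c'⟩ - h
    simp only [Prod.mk.injEq] at h
    simp only [Prod.mk.injEq]
    exact ⟨Subtype.ext h.1, Subtype.ext h.2.1, Subtype.ext h.2.2⟩

lemma degree_induce_closed (G : SimpleGraph V) (s : Set V)
    (hs : ∀ a b, a ∈ s → G.Adj a b → b ∈ s) (v : s)
    [Fintype ((G.induce s).neighborSet v)] [Fintype (G.neighborSet v)] :
    (G.induce s).degree v = G.degree v.1 := by
  rw [← card_neighborFinset_eq_degree, ← card_neighborFinset_eq_degree]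
  apply Finset.card_bij (fun x _ => x.1)
  · intro x hx
    rw [mem_neighborFinset] at hx ⊢
    exact hx
  · intro a _ b _ h
    exact Subtype.ext h
  · intro b hb
    rw [mem_neighborFinset] at hb
    exact ⟨⟨b, hs _ _ v.2 hb⟩, by rw [mem_neighborFinset]; exact hb, rfl⟩

/-- if `U > w2` there is a `K_{p+1}` component -/
lemma exists_component (p : ℕ) (G : SimpleGraph V) (h : w2 p G < UU p G) :
    ∃ v, G.degree v = p ∧ ∀ b, G.Adj v b →
      insert b (G.neighborFinset b) = insert v (G.neighborFinset v) := by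
  by_contra hcon
  push Not at hcon
  -- every vertex of degree p starts or centres an induced path
  have key : ∀ v, G.degree v = p → ∃ t : (V × V × V) × Bool, IsP G t.1 ∧
      (if t.2 then t.1.1 else t.1.2.1) = v := by
    intro v hv
    obtain ⟨b, hb, hne⟩ := hcon v hv
    by_contra hno
    push Not at hno
    apply hne
    have n1 : ∀ b c, ¬ IsP G (v, b, c) := fun b c hP => hno ((v, b, c), true) hP (by simp)
    have n2 : ∀ b c, ¬ IsP G (b, v, c) := fun b c hP => hno ((b, v, c), false) hP (by simp)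
    ext x
    simp only [mem_insert, mem_neighborFinset]
    constructor
    · rintro (rfl | hx)
      · exact Or.inr hb
      · by_cases hxv : x = v
        · exact Or.inl hxv
        · right
          by_contra hvx
          exact n1 b x ⟨hb, hx, fun e => hxv e.symm, hvx⟩
    · rintro (rfl | hx)
      · exact Or.inr hb.symm
      · by_cases hxb : x = b
        · exact Or.inl hxb
        · right
          by_contra hbx
          exact n2 b x ⟨hb.symm, hx, fun e => hxb e.symm, hbx⟩
  have hcard : (univ.filter (fun v : V => G.degree v = p)).card ≤ 2 * np G := by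
    have : (univ.filter (fun v : V => G.degree v = p)).card ≤
        ((univ.filter (IsP G)) ×ˢ (univ : Finset Bool)).card := by
      apply Finset.card_le_card_of_surjOn (fun t : (V × V × V) × Bool => if t.2 then t.1.1 else t.1.2.1)
      intro v hv
      simp only [coe_filter, mem_univ, true_and, Set.mem_ofPred_eq] at hv
      obtain ⟨t, ht1, ht2⟩ := key v hv
      refine ⟨t, ?_, ht2⟩
      simp [ht1]
    rw [Finset.card_product] at this
    simp only [Finset.card_univ, Fintype.card_bool] at this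
    rw [np]
    omega
  have hsum : UU p G ≤ ∑ v, (((G.degree v : ℤ) - p) * ((G.degree v : ℤ) - p - 1) +
      (if G.degree v = p then 1 else 0)) := by
    rw [UU]
    apply Finset.sum_le_sum
    intro v _
    by_cases h1 : G.degree v = p
    · rw [h1]; simp
    · simp only [h1, if_false, add_zero]
      have h1' : (G.degree v : ℤ) - p ≠ 0 := by
        intro e; apply h1; omega
      obtain ⟨t, ht⟩ : ∃ t : ℤ, t = (G.degree v : ℤ) - p := ⟨_, rfl⟩
      have e1 : (p : ℤ) + 1 - (G.degree v : ℤ) = 1 - t := by rw [ht]; ring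
      rw [e1, ← ht]
      rw [← ht] at h1'
      rcases lt_or_gt_of_ne h1' with h2 | h2
      · nlinarith
      · nlinarith
  rw [Finset.sum_add_distrib, Finset.sum_boole] at hsum
  rw [w2] at h
  have : ((univ.filter (fun v : V => G.degree v = p)).card : ℤ) ≤ 2 * np G := by exact_mod_cast hcard
  linarith


lemma sum_induce_closed {X : Type*} [Fintype X] (G : SimpleGraph X) (N : Finset X) (p : ℕ)
    (hNdeg : ∀ u ∈ N, G.degree u = p) (hNcard : N.card = p + 1)
    (hclosed : ∀ a b, a ∈ {x : X | x ∉ N} → G.Adj a b → b ∈ {x : X | x ∉ N})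
    [Fintype {x : X | x ∉ N}]
    [∀ u : {x : X | x ∉ N}, Fintype ((G.induce {x : X | x ∉ N}).neighborSet u)] (f : ℕ → ℤ) :
    ∑ u : {x : X | x ∉ N}, f ((G.induce {x : X | x ∉ N}).degree u) =
      ∑ u, f (G.degree u) - (p + 1) * f p := by
  have e1 : ∑ u : {x : X | x ∉ N}, f ((G.induce {x : X | x ∉ N}).degree u) =
      ∑ u : {x : X | x ∉ N}, f (G.degree u.1) := by
    apply Finset.sum_congr rfl
    intro u _
    rw [degree_induce_closed G {x : X | x ∉ N} hclosed u]
  have e2 : ∑ u : {x : X | x ∉ N}, f (G.degree u.1) = ∑ u ∈ univ.filter (fun x => x ∉ N), f (G.degree u) := by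
    rw [Finset.sum_subtype (univ.filter (fun x => x ∉ N)) (p := fun x => x ∉ N) (by simp)]
    congr!
  have e3 : ∑ u ∈ univ.filter (fun x => x ∈ N), f (G.degree u) = (p + 1) * f p := by
    rw [Finset.filter_mem_eq_inter, Finset.univ_inter,
      Finset.sum_congr rfl (g := fun _ => f p) (fun u hu => by rw [hNdeg u hu]),
      Finset.sum_const, hNcard, nsmul_eq_mul]
    push_cast; ring
  have e4 := Finset.sum_filter_add_sum_filter_not (univ : Finset X) (fun x => x ∈ N)
    (fun u => f (G.degree u))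
  rw [e1, e2, ← e4, e3]
  ring

lemma T_remove (p : ℕ) {U V w : ℤ} (h : T p U V w) (hU : w < U) : T p (U - (p + 1)) V w := by
  obtain ⟨X, _, G, h1, h2, h3⟩ := h
  obtain ⟨v, hv, hb⟩ := exists_component p G (by rw [h1]; linarith)
  -- the closed neighbourhood of v
  obtain ⟨N, hN⟩ : ∃ N : Finset X, N = insert v (G.neighborFinset v) := ⟨_, rfl⟩
  have hNall : ∀ u ∈ N, insert u (G.neighborFinset u) = N := by
    intro u hu
    rw [hN, mem_insert, mem_neighborFinset] at hu
    rcases hu with rfl | hu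
    · exact hN.symm
    · rw [hN]; exact hb u hu
  have hNdeg : ∀ u ∈ N, G.degree u = p := by
    intro u hu
    rw [← hv]
    apply deg_eq_of_closed
    rw [hNall u hu, hN]
  have hNcard : N.card = p + 1 := by rw [hN, card_insert_nbhd, hv]
  have hclosed : ∀ a b, a ∈ {x : X | x ∉ N} → G.Adj a b → b ∈ {x : X | x ∉ N} := by
    intro a b ha hab hbN
    apply ha
    rw [← hNall b hbN, mem_insert, mem_neighborFinset]
    exact Or.inr hab.symm
  refine ⟨{x : X | x ∉ N}, inferInstance, G.induce {x : X | x ∉ N}, ?_, ?_, ?_⟩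
  · refine (sum_induce_closed G N p hNdeg hNcard hclosed (fun d => (p : ℤ) + 1 - d)).trans ?_
    rw [← h1, UU]
    ring
  · refine (sum_induce_closed G N p hNdeg hNcard hclosed (fun d => (d : ℤ) - p)).trans ?_
    rw [← h2, VV]
    ring
  · refine le_trans ?_ h3
    refine le_trans (add_le_add (le_refl _) (le_of_eq (sum_induce_closed G N p hNdeg hNcard hclosed
      (fun d => ((d : ℤ) - p) * ((d : ℤ) - p - 1))))) ?_
    refine le_trans (add_le_add (mul_le_mul_of_nonneg_left
      (Nat.cast_le.mpr (np_comap_le G {x : X | x ∉ N})) (by norm_num)) (le_refl _)) ?_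
    rw [w2]
    simp only [sub_self, zero_mul, mul_zero, sub_zero]
    exact le_refl _

lemma T_removeMany (p k : ℕ) {U V w : ℤ} (h : T p (U + (p + 1) * k) V w) (hU : w ≤ U) :
    T p U V w := by
  induction k with
  | zero => simpa using h
  | succ k ih =>
    apply ih
    have := T_remove p h (by push_cast; nlinarith)
    convert this using 1
    push_cast; ring

end ops



section deletion
variable {V : Type*} [Fintype V]

lemma degree_del (G : SimpleGraph V) (x : V) (v : {y : V | y ≠ x})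
    [Fintype ((G.induce {y : V | y ≠ x}).neighborSet v)] :
    ((G.induce {y : V | y ≠ x}).degree v : ℤ) = G.degree v.1 - (if G.Adj x v.1 then 1 else 0) := by
  have h1 : ((G.neighborFinset v.1).filter (fun y => y ≠ x)).card =
      (G.induce {y : V | y ≠ x}).degree v := by
    rw [← card_neighborFinset_eq_degree]
    symm
    apply Finset.card_bij (fun y _ => y.1)
    · intro y hy
      rw [mem_neighborFinset] at hy
      rw [mem_filter, mem_neighborFinset]
      exact ⟨hy, y.2⟩
    · intro a _ b _ h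
      exact Subtype.ext h
    · intro b hb
      rw [mem_filter, mem_neighborFinset] at hb
      exact ⟨⟨b, hb.2⟩, by rw [mem_neighborFinset]; exact hb.1, rfl⟩
  have h2 : ((G.neighborFinset v.1).filter (fun y => y = x)).card = if G.Adj x v.1 then 1 else 0 := by
    by_cases h : G.Adj x v.1
    · rw [if_pos h, Finset.card_eq_one]
      refine ⟨x, ?_⟩
      ext y
      simp only [mem_filter, mem_neighborFinset, mem_singleton]
      exact ⟨fun k => k.2, fun k => ⟨k ▸ h.symm, k⟩⟩
    · rw [if_neg h, Finset.card_eq_zero, Finset.filter_eq_empty_iff]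
      rintro y hy rfl
      rw [mem_neighborFinset] at hy
      exact h hy.symm
  have h3 := Finset.card_filter_add_card_filter_not (s := G.neighborFinset v.1) (fun y => y = x)
  rw [card_neighborFinset_eq_degree, h2] at h3
  rw [← h3, ← h1]
  push_cast
  ring

/-- number of ordered induced paths avoiding `x` -/
lemma np_del (G : SimpleGraph V) (x : V) [Fintype {y : V | y ≠ x}] :
    (np (G.induce {y : V | y ≠ x}) : ℤ) +
      ∑ y ∈ G.neighborFinset x, ((G.degree x : ℤ) - G.degree y) ≤ np G := by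
  obtain ⟨A, hA⟩ : ∃ A : Finset (V × V × V), A = (univ.filter (IsP G)).filter
    (fun t => t.1 ≠ x ∧ t.2.1 ≠ x ∧ t.2.2 ≠ x) := ⟨_, rfl⟩
  obtain ⟨B, hB⟩ : ∃ B : Finset (V × V × V), B = (univ.filter (IsP G)).filter
    (fun t => t.2.1 = x) := ⟨_, rfl⟩
  have hdisj : Disjoint A B := by
    rw [Finset.disjoint_left]
    intro t htA htB
    rw [hA, mem_filter] at htA
    rw [hB, mem_filter] at htB
    exact htA.2.2.1 htB.2
  have hAB : A.card + B.card ≤ np G := by
    rw [← card_union_of_disjoint hdisj, np]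
    apply card_le_card
    intro t ht
    rw [mem_union, hA, hB] at ht
    rcases ht with ht | ht
    · exact (mem_filter.mp ht).1
    · exact (mem_filter.mp ht).1
  have h1 : np (G.induce {y : V | y ≠ x}) = A.card := by
    unfold np
    apply Finset.card_bij (fun t _ => (t.1.1, t.2.1.1, t.2.2.1))
    · rintro ⟨a, b, c⟩ h
      simp only [mem_filter, mem_univ, true_and, IsP] at h
      rw [hA]
      simp only [mem_filter, mem_univ, true_and, IsP]
      exact ⟨⟨h.1, h.2.1, fun e => h.2.2.1 (Subtype.ext e), h.2.2.2⟩, a.2, b.2, c.2⟩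
    · rintro ⟨a, b, c⟩ - ⟨a', b', c'⟩ - h
      simp only [Prod.mk.injEq] at h
      simp only [Prod.mk.injEq]
      exact ⟨Subtype.ext h.1, Subtype.ext h.2.1, Subtype.ext h.2.2⟩
    · rintro ⟨a, b, c⟩ h
      rw [hA] at h
      simp only [mem_filter, mem_univ, true_and, IsP] at h
      obtain ⟨⟨h1, h2, h3, h4⟩, ha, hb, hc⟩ := h
      refine ⟨(⟨a, ha⟩, ⟨b, hb⟩, ⟨c, hc⟩), ?_, rfl⟩
      simp only [mem_filter, mem_univ, true_and, IsP]
      exact ⟨h1, h2, fun e => h3 (congrArg Subtype.val e), h4⟩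
  have h2 : B.card = ∑ y ∈ G.neighborFinset x, (G.neighborFinset x \ insert y (G.neighborFinset y)).card := by
    rw [← Finset.card_sigma]
    apply Finset.card_bij' (i := fun (t : V × V × V) _ => (⟨t.1, t.2.2⟩ : Σ _ : V, V))
      (j := fun s _ => (s.1, x, s.2))
    · rintro ⟨a, b, c⟩ h
      rw [hB] at h
      simp only [mem_filter, mem_univ, true_and, IsP] at h
      obtain ⟨⟨k1, k2, k3, k4⟩, k5⟩ := h
      rw [k5] at k1 k2
      simp only [mem_sigma, mem_neighborFinset, mem_sdiff, mem_insert, not_or]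
      exact ⟨k1.symm, k2, fun e => k3 e.symm, k4⟩
    · rintro ⟨a, c⟩ h
      simp only [mem_sigma, mem_neighborFinset, mem_sdiff, mem_insert, not_or] at h
      rw [hB]
      simp only [mem_filter, mem_univ, true_and, IsP]
      exact ⟨⟨h.1.symm, h.2.1, fun e => h.2.2.1 e.symm, h.2.2.2⟩, trivial⟩
    · rintro ⟨a, b, c⟩ h
      rw [hB] at h
      simp only [mem_filter] at h
      obtain ⟨-, h⟩ := h
      simp only [Prod.mk.injEq, true_and, and_true]
      exact h.symm
    · rintro ⟨a, c⟩ h
      rfl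
  have h3 : ∑ y ∈ G.neighborFinset x, ((G.degree x : ℤ) - G.degree y) ≤ B.card := by
    rw [h2]
    push_cast
    apply Finset.sum_le_sum
    intro y hy
    rw [mem_neighborFinset] at hy
    have e1 : (insert x (G.neighborFinset x)).card - (insert y (G.neighborFinset y)).card ≤
        (insert x (G.neighborFinset x) \ insert y (G.neighborFinset y)).card :=
      Finset.le_card_sdiff _ _
    rw [card_insert_nbhd, card_insert_nbhd] at e1
    have e2 : (insert x (G.neighborFinset x) \ insert y (G.neighborFinset y)).card ≤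
        (G.neighborFinset x \ insert y (G.neighborFinset y)).card := by
      apply card_le_card
      intro z hz
      rw [mem_sdiff, mem_insert] at hz
      rw [mem_sdiff]
      refine ⟨?_, hz.2⟩
      rcases hz.1 with rfl | h
      · exfalso
        apply hz.2
        rw [mem_insert, mem_neighborFinset]
        exact Or.inr hy.symm
      · exact h
    omega
  rw [h1]
  have : ((A.card + B.card : ℕ) : ℤ) ≤ np G := by exact_mod_cast hAB
  push_cast at this
  linarith

lemma sum_del (G : SimpleGraph V) (x : V) [Fintype {y : V | y ≠ x}]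
    [∀ u : {y : V | y ≠ x}, Fintype ((G.induce {y : V | y ≠ x}).neighborSet u)] (f : ℤ → ℤ) :
    ∑ u : {y : V | y ≠ x}, f ((G.induce {y : V | y ≠ x}).degree u) =
      ∑ u, f (G.degree u) - f (G.degree x)
        - ∑ y ∈ G.neighborFinset x, (f (G.degree y) - f ((G.degree y : ℤ) - 1)) := by
  have e1 : ∑ u : {y : V | y ≠ x}, f ((G.induce {y : V | y ≠ x}).degree u) =
      ∑ u : {y : V | y ≠ x}, (f (G.degree u.1 - (if G.Adj x u.1 then 1 else 0))) := by
    apply Finset.sum_congr rfl
    intro u _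
    rw [degree_del G x u]
  have e2 : ∑ u : {y : V | y ≠ x}, (f (G.degree u.1 - (if G.Adj x u.1 then 1 else 0))) =
      ∑ u ∈ univ.filter (fun y => y ≠ x), (f (G.degree u - (if G.Adj x u then 1 else 0))) := by
    rw [Finset.sum_subtype (univ.filter (fun y => y ≠ x)) (p := fun y => y ≠ x) (by simp)]
    congr!
  have e3 : ∑ u ∈ univ.filter (fun y => y = x), (f (G.degree u - (if G.Adj x u then 1 else 0)))
      = f (G.degree x) := by
    have : univ.filter (fun y => y = x) = {x} := by ext y; simp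
    rw [this, sum_singleton]
    simp
  have e4 := Finset.sum_filter_add_sum_filter_not (univ : Finset V) (fun y => y = x)
    (fun u => f (G.degree u - (if G.Adj x u then 1 else 0)))
  have e5 : ∑ u, f (G.degree u - (if G.Adj x u then 1 else 0)) = ∑ u, f (G.degree u) -
      ∑ y ∈ G.neighborFinset x, (f (G.degree y) - f ((G.degree y : ℤ) - 1)) := by
    have : G.neighborFinset x = univ.filter (fun y => G.Adj x y) := by
      ext y; simp
    rw [this, Finset.sum_filter, ← Finset.sum_sub_distrib]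
    apply Finset.sum_congr rfl
    intro u _
    by_cases h : G.Adj x u <;> simp [h]
  rw [e1, e2]
  rw [e3, e5] at e4
  linarith

end deletion

/-- the deletion step: remove a vertex of degree `p+1+j` and add `j` copies of `K_p` -/
lemma T_delete (p : ℕ) {U V w : ℤ} (h : T p U V w) (hV : 1 ≤ V) :
    ∃ j : ℕ, T p (U + (p + 1) * (1 + 2 * j)) (V - (p + 2) * (1 + j)) w := by
  obtain ⟨X, _, G, h1, h2, h3⟩ := h
  -- a vertex of degree at least p+1
  have hex : ∃ x, p + 1 ≤ G.degree x := by
    by_contra hcon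
    push Not at hcon
    have : VV p G ≤ 0 := by
      rw [VV]
      apply Finset.sum_nonpos
      intro v _
      have := hcon v
      omega
    omega
  obtain ⟨x, hx⟩ := hex
  obtain ⟨j, hj⟩ := Nat.exists_eq_add_of_le hx
  refine ⟨j, ?_⟩
  have hdx : (G.degree x : ℤ) = p + 1 + j := by rw [hj]; push_cast; ring
  have hcardN : ((G.neighborFinset x).card : ℤ) = p + 1 + j := by
    rw [card_neighborFinset_eq_degree]; exact hdx
  have hT : T p (U + (p + 1) + 2 * j) (V - (p + 2) - 2 * j)
      (w - j * (j + 1) - 2 * (p + 1 + j) * j) := by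
    refine ⟨{y : X | y ≠ x}, inferInstance, G.induce {y : X | y ≠ x}, ?_, ?_, ?_⟩
    · refine (sum_del G x (fun d => (p : ℤ) + 1 - d)).trans ?_
      rw [← h1, UU]
      have : ∑ y ∈ G.neighborFinset x, ((p : ℤ) + 1 - G.degree y - (p + 1 - ((G.degree y : ℤ) - 1))) =
          - (p + 1 + j) := by
        rw [Finset.sum_congr rfl (g := fun _ => (-1 : ℤ)) (fun y _ => by ring), Finset.sum_const,
          nsmul_eq_mul, hcardN]
        ring
      rw [this, hdx]
      ring
    · refine (sum_del G x (fun d => d - (p : ℤ))).trans ?_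
      rw [← h2, VV]
      have : ∑ y ∈ G.neighborFinset x, ((G.degree y : ℤ) - p - ((G.degree y : ℤ) - 1 - p)) =
          (p + 1 + j) := by
        rw [Finset.sum_congr rfl (g := fun _ => (1 : ℤ)) (fun y _ => by ring), Finset.sum_const,
          nsmul_eq_mul, hcardN]
        ring
      rw [this, hdx]
      ring
    · refine le_trans (add_le_add (mul_le_mul_of_nonneg_left
        (le_sub_iff_add_le.mpr (np_del G x)) (by norm_num)) (le_of_eq (sum_del G x
        (fun d => (d - p) * (d - p - 1))))) ?_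
      have k2 : ∑ y ∈ G.neighborFinset x, (((G.degree y : ℤ) - p) * ((G.degree y : ℤ) - p - 1) -
          ((G.degree y : ℤ) - 1 - p) * ((G.degree y : ℤ) - 1 - p - 1)) =
          2 * (p + 1 + j) * j - 2 * ∑ y ∈ G.neighborFinset x, ((G.degree x : ℤ) - G.degree y) := by
        rw [Finset.sum_congr rfl (g := fun y => (2 * (j : ℤ) - 2 * ((G.degree x : ℤ) - G.degree y)))
          (fun y _ => by rw [hdx]; ring), Finset.sum_sub_distrib, Finset.sum_const,
          nsmul_eq_mul, hcardN, Finset.mul_sum]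
        ring
      rw [k2]
      rw [w2] at h3
      have k3 : ((G.degree x : ℤ) - p) * ((G.degree x : ℤ) - p - 1) = (j + 1) * j := by
        rw [hdx]; ring
      rw [k3]
      linarith
  have := T_addA p j hT
  refine T_mono p (w := w - j * (j + 1) - 2 * (p + 1 + j) * j + 2 * p * j) ?_ ?_
  · convert this using 1 <;> ring
  · have hj0 : (0 : ℤ) ≤ j := by positivity
    nlinarith




section transfer

lemma np_iso {V W : Type*} [Fintype V] [Fintype W] {G : SimpleGraph V} {H : SimpleGraph W}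
    (e : G ≃g H) : np G = np H := by
  unfold np
  apply Finset.card_bij' (i := fun t _ => (e t.1, e t.2.1, e t.2.2))
    (j := fun t _ => (e.symm t.1, e.symm t.2.1, e.symm t.2.2))
  · rintro ⟨a, b, c⟩ h
    simp only [mem_filter, mem_univ, true_and, IsP] at h ⊢
    exact ⟨e.map_adj_iff.mpr h.1, e.map_adj_iff.mpr h.2.1, fun k => h.2.2.1 (e.injective k),
      fun k => h.2.2.2 (e.map_adj_iff.mp k)⟩
  · rintro ⟨a, b, c⟩ h
    simp only [mem_filter, mem_univ, true_and, IsP] at h ⊢
    exact ⟨e.symm.map_adj_iff.mpr h.1, e.symm.map_adj_iff.mpr h.2.1,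
      fun k => h.2.2.1 (e.symm.injective k), fun k => h.2.2.2 (e.symm.map_adj_iff.mp k)⟩
  · rintro ⟨a, b, c⟩ h
    simp
  · rintro ⟨a, b, c⟩ h
    simp

lemma s3_iso {V W : Type*} [Fintype V] [Fintype W] {G : SimpleGraph V} {H : SimpleGraph W}
    (e : G ≃g H) : s3 G = s3 H := by
  have h1 := six_s3 G
  have h2 := six_s3 H
  rw [np_iso e] at h1
  have h3 : ∑ v, G.degree v * (G.degree v - 1) = ∑ v, H.degree v * (H.degree v - 1) := by
    apply Fintype.sum_equiv e.toEquiv
    intro v
    have : H.degree (e v) = G.degree v := e.degree_eq v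
    change G.degree v * (G.degree v - 1) = H.degree (e v) * (H.degree (e v) - 1)
    rw [this]
  omega

lemma edges_iso {V W : Type*} {G : SimpleGraph V} {H : SimpleGraph W}
    (e : G ≃g H) : G.edgeSet.ncard = H.edgeSet.ncard := by
  rw [← Nat.card_coe_set_eq, ← Nat.card_coe_set_eq]
  exact Nat.card_congr e.mapEdgeSet

lemma VV_eq {V : Type*} [Fintype V] (p : ℕ) (G : SimpleGraph V) :
    VV p G = 2 * (G.edgeSet.ncard : ℤ) - p * (Fintype.card V : ℤ) := by
  rw [VV, Finset.sum_sub_distrib, sum_deg, Finset.sum_const, Finset.card_univ, nsmul_eq_mul]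
  ring

lemma UU_eq {V : Type*} [Fintype V] (p : ℕ) (G : SimpleGraph V) :
    UU p G = (p + 1) * (Fintype.card V : ℤ) - 2 * (G.edgeSet.ncard : ℤ) := U_eq p G

lemma T_fin (p n e : ℕ) {w : ℤ} (h : T p ((p + 1) * n - 2 * e) (2 * e - p * n) w) :
    ∃ G : SimpleGraph (Fin n), G.edgeSet.ncard = e ∧
      6 * (s3 G : ℤ) - 4 * p * e + p * (p + 1) * n ≤ w := by
  obtain ⟨X, _, G, h1, h2, h3⟩ := h
  rw [UU_eq] at h1
  rw [VV_eq] at h2
  have hc : (Fintype.card X : ℤ) = n := by linarith
  have hc' : Fintype.card X = n := by exact_mod_cast hc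
  have he : (G.edgeSet.ncard : ℤ) = e := by rw [hc] at h2; linarith
  have he' : G.edgeSet.ncard = e := by exact_mod_cast he
  rw [w2_eq, he, hc] at h3
  have eqv : X ≃ Fin n := Fintype.equivFinOfCardEq hc'
  have iso : G ≃g G.map eqv.toEmbedding := SimpleGraph.Iso.map eqv G
  refine ⟨G.map eqv.toEmbedding, ?_, ?_⟩
  · rw [← edges_iso iso, he']
  · rw [← s3_iso iso]
    exact h3

lemma T_of_fin (p n e : ℕ) (G : SimpleGraph (Fin n)) (he : G.edgeSet.ncard = e) {w : ℤ}
    (hw : 6 * (s3 G : ℤ) - 4 * p * e + p * (p + 1) * n ≤ w) :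
    T p ((p + 1) * n - 2 * e) (2 * e - p * n) w := by
  refine ⟨Fin n, inferInstance, G, ?_, ?_, ?_⟩
  · rw [UU_eq, he, Fintype.card_fin]
  · rw [VV_eq, he, Fintype.card_fin]
  · rw [w2_eq, he, Fintype.card_fin]; exact hw

lemma exists_graph (n e : ℕ) (h : e ≤ n.choose 2) :
    ∃ G : SimpleGraph (Fin n), G.edgeSet.ncard = e := by
  have hc : (⊤ : SimpleGraph (Fin n)).edgeFinset.card = n.choose 2 := by
    rw [SimpleGraph.card_edgeFinset_top_eq_card_choose_two, Fintype.card_fin]
  obtain ⟨T, hT, hTc⟩ := Finset.exists_subset_card_eq (s := (⊤ : SimpleGraph (Fin n)).edgeFinset)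
    (n := e) (by rw [hc]; exact h)
  refine ⟨SimpleGraph.fromEdgeSet (T : Set (Sym2 (Fin n))), ?_⟩
  rw [SimpleGraph.edgeSet_fromEdgeSet]
  have : (T : Set (Sym2 (Fin n))) \ Sym2.diagSet = (T : Set (Sym2 (Fin n))) := by
    ext s
    simp only [Set.mem_sdiff, mem_coe, and_iff_left_iff_imp]
    intro hs
    rw [Sym2.mem_diagSet]
    have := hT hs
    rw [SimpleGraph.mem_edgeFinset] at this
    exact SimpleGraph.not_isDiag_of_mem_edgeSet _ this
  rw [this, Set.ncard_coe_finset, hTc]

lemma minTriples_spec_of {n e : ℕ} (h : ∃ G : SimpleGraph (Fin n), G.edgeSet.ncard = e) :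
    ∃ G : SimpleGraph (Fin n), G.edgeSet.ncard = e ∧ s3 G = minTriples n e := by
  have hne : {s : ℕ | ∃ G : SimpleGraph (Fin n), G.edgeSet.ncard = e ∧ s3 G = s}.Nonempty := by
    obtain ⟨G, hG⟩ := h
    exact ⟨s3 G, G, hG, rfl⟩
  exact Nat.sInf_mem hne

lemma minTriples_le {n e : ℕ} (G : SimpleGraph (Fin n)) (h : G.edgeSet.ncard = e) :
    minTriples n e ≤ s3 G := Nat.sInf_le ⟨G, h, rfl⟩

end transfer

/-- the period `P_p = binom(p+2, 2)` -/
def P (p : ℕ) : ℕ := (p + 2).choose 2

/-- the increment `D_p = p (p+1) (p+2) / 3` -/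
def D (p : ℕ) : ℕ := p * (p + 1) * (p + 2) / 3

lemma two_P (p : ℕ) : 2 * (P p : ℤ) = (p + 1) * (p + 2) := by
  have h : 2 * P p = (p + 1) * (p + 2) := by
    rw [P, Nat.choose_two_right]
    have h2 : 2 ∣ (p + 2) * (p + 2 - 1) := by
      rw [show p + 2 - 1 = p + 1 by omega, mul_comm]
      exact (Nat.even_mul_succ_self (p + 1)).two_dvd
    rw [Nat.mul_div_cancel' h2, show p + 2 - 1 = p + 1 by omega, mul_comm]
  exact_mod_cast h

lemma three_D (p : ℕ) : 3 * (D p : ℤ) = p * (p + 1) * (p + 2) := by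
  have h : 3 * D p = p * (p + 1) * (p + 2) := by
    rw [D]
    apply Nat.mul_div_cancel'
    have : 3 ∣ p ∨ 3 ∣ (p + 1) ∨ 3 ∣ (p + 2) := by omega
    rcases this with h | h | h
    · exact Dvd.dvd.mul_right (Dvd.dvd.mul_right h _) _
    · exact Dvd.dvd.mul_right (Dvd.dvd.mul_left h _) _
    · exact Dvd.dvd.mul_left h _
  exact_mod_cast h

/-- **Failure of the periodicity** for every `p ≥ 2`. -/
theorem failure (p t n e : ℕ) (hp : 2 ≤ p) (ht : p + 2 ≤ t) (hn : n + 1 = (p + 2) * t)
    (he : e + p = P p * (t - 1)) :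
    p * n < 2 * e ∧ 2 * (e + P p) < (p + 1) * n ∧ e + P p ≤ n.choose 2 ∧
      minTriples n e + D p < minTriples n (e + P p) := by
  obtain ⟨y, hy⟩ := Nat.exists_eq_add_of_le ht
  have hP := two_P p
  have hD := three_D p
  have hn' : (n : ℤ) = (p + 2) * (p + 2 + y) - 1 := by
    have : ((n + 1 : ℕ) : ℤ) = (((p + 2) * t : ℕ) : ℤ) := by rw [hn]
    rw [hy] at this
    push_cast at this
    linarith
  have he' : (e : ℤ) = P p * (p + 1 + y) - p := by
    have h1 : ((e + p : ℕ) : ℤ) = ((P p * (t - 1) : ℕ) : ℤ) := by rw [he]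
    rw [hy, show p + 2 + y - 1 = p + 1 + y by omega] at h1
    push_cast at h1
    linarith
  have hy0 : (0 : ℤ) ≤ y := by positivity
  have hp' : (2 : ℤ) ≤ p := by exact_mod_cast hp
  have h2e : 2 * (e : ℤ) = (p + 1) * (p + 2) * (p + 1 + y) - 2 * p := by
    rw [he']; linear_combination (p + 1 + y : ℤ) * hP
  have a1 : p * n < 2 * e := by
    zify
    rw [h2e, hn']
    nlinarith
  have a2 : 2 * (e + P p) < (p + 1) * n := by
    zify
    have : 2 * ((e : ℤ) + P p) = (p + 1) * (p + 2) * (p + 2 + y) - 2 * p := by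
      linear_combination h2e + hP
    rw [this, hn']
    nlinarith
  have a3 : e + P p ≤ n.choose 2 := by
    rw [Nat.choose_two_right, Nat.le_div_iff_mul_le (by norm_num)]
    have h1 : p + 1 ≤ n - 1 := by
      have : p + 2 ≤ n := by zify; rw [hn']; nlinarith
      omega
    calc (e + P p) * 2 = 2 * (e + P p) := by ring
      _ ≤ (p + 1) * n := a2.le
      _ = n * (p + 1) := by ring
      _ ≤ n * (n - 1) := Nat.mul_le_mul_left _ h1
  refine ⟨a1, a2, a3, ?_⟩
  -- upper bound at e
  have hT : T p ((p + 1) * n - 2 * e) (2 * e - p * n) (2 * p) := by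
    have h0 := T_addC p (y + 1) (T_addB p (p + 1) (T_addA p 1 (T_zero p)))
    have h1 := h0
    convert h1 using 1
    · rw [hn', h2e]; push_cast; ring
    · rw [hn', h2e]; push_cast; ring
    · push_cast; ring
  obtain ⟨G0, hG0e, hG0s⟩ := T_fin p n e hT
  have hle := minTriples_le G0 hG0e
  -- lower bound at e + P
  obtain ⟨G1, hG1e, hG1s⟩ := minTriples_spec_of (exists_graph n (e + P p) a3)
  have hlow := lower p hp G1 (by
    rw [U_eq, hG1e, Fintype.card_fin]
    push_cast
    have : 2 * ((e : ℤ) + P p) = (p + 1) * (p + 2) * (p + 2 + y) - 2 * p := by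
      linear_combination h2e + hP
    rw [this, hn']
    ring)
  rw [w2_eq, hG1e, hG1s, Fintype.card_fin] at hlow
  push_cast at hlow
  have hle' : (minTriples n e : ℤ) ≤ s3 G0 := by exact_mod_cast hle
  have : (minTriples n e : ℤ) + D p < minTriples n (e + P p) := by
    nlinarith
  exact_mod_cast this

/-- upper bound for the doubled defect -/
lemma upper (p n e : ℕ) (hV : (p : ℤ) * n ≤ 2 * e)
    (hU : 2 * (p : ℤ) * (P p - 1) ≤ (p + 1) * n - 2 * e) :
    T p ((p + 1) * n - 2 * e) (2 * e - p * n) (2 * p * (P p - 1)) := by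
  have hP := two_P p
  have hPpos : (0 : ℤ) < P p := by nlinarith
  obtain ⟨a, ha⟩ : ∃ a : ℤ, a = (e : ℤ) - (p + 1) * n := ⟨_, rfl⟩
  obtain ⟨s, hs⟩ : ∃ s : ℤ, s = - (a / P p) := ⟨_, rfl⟩
  have hk0 : 0 ≤ a + P p * s := by
    have := Int.emod_nonneg a hPpos.ne'
    rw [Int.emod_def] at this
    rw [hs]; linarith
  have hk1 : a + P p * s ≤ P p - 1 := by
    have := Int.emod_lt_of_pos a hPpos
    rw [Int.emod_def] at this
    rw [hs]; linarith
  obtain ⟨k, hk⟩ := Int.eq_ofNat_of_zero_le hk0
  rw [hk] at hk1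
  obtain ⟨c, hc⟩ : ∃ c : ℤ, c = (P p : ℤ) - p - 1 := ⟨_, rfl⟩
  have hc2 : 2 * c = p * (p + 1) := by rw [hc]; linarith
  obtain ⟨y, hy⟩ : ∃ y : ℤ, y = (e : ℤ) - p * n + c * s := ⟨_, rfl⟩
  obtain ⟨x, hx⟩ : ∃ x : ℤ, x = (2 * p + 1) * n - 2 * e - p * (p + 2) * s := ⟨_, rfl⟩
  have hy2 : (p + 2) * y = (2 * e - p * n) + p * k := by
    rw [hy, ← hk, ha, hc]
    linear_combination (s : ℤ) * hP
  have hx2 : (p + 1) * x = ((p + 1) * n - 2 * e) - 2 * p * k := by
    rw [hx, ← hk, ha]
    linear_combination ((p : ℤ) * s) * hP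
  have hp0 : (0 : ℤ) ≤ p := by positivity
  have hk' : (0 : ℤ) ≤ k := by positivity
  have hk1' : (k : ℤ) ≤ P p - 1 := by simpa using hk1
  have hy0 : 0 ≤ y := by
    have h1 : 0 ≤ (p + 2) * y := by rw [hy2]; nlinarith
    by_contra hneg
    push Not at hneg
    nlinarith
  have hx0 : 0 ≤ x := by
    have h1 : 0 ≤ (p + 1) * x := by
      rw [hx2]
      have : 2 * (p : ℤ) * k ≤ 2 * p * (P p - 1) := by nlinarith
      linarith
    by_contra hneg
    push Not at hneg
    nlinarith
  obtain ⟨x', hx'⟩ := Int.eq_ofNat_of_zero_le hx0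
  obtain ⟨y', hy'⟩ := Int.eq_ofNat_of_zero_le hy0
  have h0 := T_addC p y' (T_addB p x' (T_addA p k (T_zero p)))
  refine T_mono p (w := 2 * p * k) ?_ (by nlinarith)
  have e1 : (p + 1) * (x' : ℤ) = ((p + 1) * n - 2 * e) - 2 * p * k := by rw [← hx2, hx']
  have e2 : (p + 2) * (y' : ℤ) = (2 * e - p * n) + p * k := by rw [← hy2, hy']
  convert h0 using 1
  · linarith
  · linarith
  · ring

/-- repeated deletion -/
lemma T_down (p : ℕ) (b : ℕ) : ∀ {U V w : ℤ}, 1 ≤ V → T p U (V + (p + 2) * b) w →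
    ∃ a : ℕ, T p (U + (p + 1) * a) V w := by
  induction b using Nat.strong_induction_on with
  | _ b ih =>
    intro U V w hV h
    rcases Nat.eq_zero_or_pos b with h0 | h0
    · subst h0
      exact ⟨0, by simpa using h⟩
    · have hp0 : (0 : ℤ) ≤ p := by positivity
      obtain ⟨j, hj⟩ := T_delete p h (by nlinarith)
      rcases le_or_gt (1 + j) b with hle | hgt
      · obtain ⟨c, hc⟩ := Nat.exists_eq_add_of_le hle
        obtain ⟨a, ha⟩ := ih c (by omega) (U := U + (p + 1) * (1 + 2 * j)) (V := V) (w := w) hV (by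
          convert hj using 1
          rw [hc]; push_cast; ring)
        refine ⟨a + (1 + 2 * j), ?_⟩
        convert ha using 1
        push_cast; ring
      · obtain ⟨c, hc⟩ := Nat.exists_eq_add_of_le hgt.le
        refine ⟨1 + 2 * j, ?_⟩
        have := T_addC p c hj
        convert this using 1
        · push_cast; ring
        · have : ((1 + j : ℕ) : ℤ) = ((b + c : ℕ) : ℤ) := by rw [hc]
          push_cast at this
          rw [this]; ring

/-- **Periodicity** up to a bounded distance from the right endpoint. -/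
theorem periodic (p n e : ℕ) (h1 : p * n < 2 * e)
    (h2 : 2 * (e + P p) + p ^ 2 * (p + 3) ≤ (p + 1) * n) :
    minTriples n (e + P p) = minTriples n e + D p := by
  have hP := two_P p
  have hD := three_D p
  have hB : 2 * (p : ℤ) * (P p - 1) = p ^ 2 * (p + 3) := by
    linear_combination (p : ℤ) * hP
  have h1' : (p : ℤ) * n + 1 ≤ 2 * e := by exact_mod_cast h1
  have h2' : 2 * ((e : ℤ) + P p) + p ^ 2 * (p + 3) ≤ (p + 1) * n := by exact_mod_cast h2
  have hp0 : (0 : ℤ) ≤ p := by positivity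
  have hPp : (0 : ℤ) ≤ P p := by positivity
  -- upper bounds
  have u0 := upper p n e (by linarith) (by linarith)
  have u1 := upper p n (e + P p) (by push_cast; linarith) (by push_cast; linarith)
  obtain ⟨G0, hG0e, hG0s⟩ := T_fin p n e u0
  obtain ⟨G1, hG1e, hG1s⟩ := T_fin p n (e + P p) u1
  obtain ⟨M0, hM0e, hM0s⟩ := minTriples_spec_of ⟨G0, hG0e⟩
  obtain ⟨M1, hM1e, hM1s⟩ := minTriples_spec_of ⟨G1, hG1e⟩
  have l0 : (minTriples n e : ℤ) ≤ s3 G0 := by exact_mod_cast minTriples_le G0 hG0e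
  have l1 : (minTriples n (e + P p) : ℤ) ≤ s3 G1 := by exact_mod_cast minTriples_le G1 hG1e
  obtain ⟨w0, hw0⟩ : ∃ w0 : ℤ, w0 = 6 * (minTriples n e : ℤ) - 4 * p * e + p * (p + 1) * n := ⟨_, rfl⟩
  obtain ⟨w1, hw1⟩ : ∃ w1 : ℤ, w1 = 6 * (minTriples n (e + P p) : ℤ) - 4 * p * ((e + P p : ℕ) : ℤ)
    + p * (p + 1) * n := ⟨_, rfl⟩
  have t0 : T p ((p + 1) * n - 2 * e) (2 * e - p * n) w0 :=
    T_of_fin p n e M0 hM0e (by rw [hM0s, hw0])
  have t1 : T p ((p + 1) * n - 2 * ((e + P p : ℕ) : ℤ)) (2 * ((e + P p : ℕ) : ℤ) - p * n) w1 :=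
    T_of_fin p n (e + P p) M1 hM1e (by rw [hM1s, hw1])
  have b0 : w0 ≤ (p + 1) * n - 2 * ((e + P p : ℕ) : ℤ) := by
    rw [hw0]; push_cast; linarith
  have b1 : w1 ≤ (p + 1) * n - 2 * ((e + P p : ℕ) : ℤ) := by
    rw [hw1]; push_cast at *; linarith
  -- first direction
  have d1 : w1 ≤ w0 := by
    have s1 : T p ((p + 1) * n - 2 * ((e + P p : ℕ) : ℤ)) (2 * e - p * n) w0 := by
      apply T_removeMany p (p + 2) _ b0
      convert t0 using 1
      push_cast; linear_combination -hP
    have s2 := T_addC p (p + 1) s1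
    have s3' : T p ((p + 1) * n - 2 * ((e + P p : ℕ) : ℤ)) (2 * ((e + P p : ℕ) : ℤ) - p * n) w0 := by
      convert s2 using 1
      push_cast; linear_combination hP
    obtain ⟨G, hGe, hGs⟩ := T_fin p n (e + P p) s3'
    have := minTriples_le G hGe
    have : (minTriples n (e + P p) : ℤ) ≤ s3 G := by exact_mod_cast this
    rw [hw1]; linarith
  -- second direction
  have d2 : w0 ≤ w1 := by
    have s1 : T p ((p + 1) * n - 2 * ((e + P p : ℕ) : ℤ)) ((2 * e - p * n) + (p + 2) * ((p + 1 : ℕ) : ℤ)) w1 := by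
      convert t1 using 1
      push_cast; linear_combination -hP
    obtain ⟨a, ha⟩ := T_down p (p + 1) (by linarith) s1
    have s2 : T p ((p + 1) * n - 2 * e) (2 * e - p * n) w1 := by
      rcases le_or_gt a (p + 2) with hle | hgt
      · obtain ⟨c, hc⟩ := Nat.exists_eq_add_of_le hle
        have := T_addB p c ha
        convert this using 1
        have hc' : ((p + 2 : ℕ) : ℤ) = ((a + c : ℕ) : ℤ) := by rw [hc]
        push_cast at hc' ⊢
        linear_combination hP + (p + 1 : ℤ) * hc'
      · obtain ⟨c, hc⟩ := Nat.exists_eq_add_of_le hgt.le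
        apply T_removeMany p c
        · convert ha using 1
          have hc' : (a : ℤ) = ((p + 2 + c : ℕ) : ℤ) := by rw [hc]
          rw [hc']
          push_cast
          linear_combination hP
        · push_cast at b1; linarith
    obtain ⟨G, hGe, hGs⟩ := T_fin p n e s2
    have := minTriples_le G hGe
    have : (minTriples n e : ℤ) ≤ s3 G := by exact_mod_cast this
    rw [hw0]; linarith
  have heq : w0 = w1 := le_antisymm d2 d1
  rw [hw0, hw1] at heq
  push_cast at heq
  have : (minTriples n (e + P p) : ℤ) = minTriples n e + D p := by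
    have h6 : 6 * (minTriples n (e + P p) : ℤ) = 6 * minTriples n e + 6 * D p := by
      linear_combination -heq + 2 * (p : ℤ) * hP - 2 * hD
    linarith
  exact_mod_cast this


end Pool.Agent.Lib_MP_6d30b5_co
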