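import Mathlib

set_option autoImplicit false

namespace Pool.Agent.Lib_MP_6d30b5_co

/-- `s3 G` is the number of 3-element vertex sets `S` whose induced subgraph `G[S]` is
connected (that is, an induced path on three vertices or a triangle). -/
noncomputable def s3 {V : Type*} (G : SimpleGraph V) : ℕ :=
  {S : Finset V | S.card = 3 ∧ (G.induce (S : Set V)).Connected}.ncard

/-- `minTriples n e` is the minimum of `s3 G` over all graphs `G` on `n` vertices with
`e` edges (the function `m(n,e)` of the problem). -/
noncomputable def minTriples (n e : ℕ) : ℕ :=
  sInf {s : ℕ | ∃ G : SimpleGraph (Fin n), G.edgeSet.ncard = e ∧ s3 G = s}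

end Pool.Agent.Lib_MP_6d30b5_co
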